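import Pool.Agent.W_448w7_h94.WiA
import Pool.Agent.W_448s7s_h5.SmB
import Pool.Agent.W_448cl_h67.ClP
import Pool.Agent.W_448s14_h94.SgK

/-!
Level 14, window 7 (MP_448cb3_co, S7, S8, `j = 14`): the profiles of the elements of level 15 of
the components which have at least two elements on level 7: an element of level 15 whose covers
are all in the component is straight, or it is dear (label 2: at least 21), or it is a pendant of
a thin element.
-/

namespace Pool.Agent.GaussPoset.W7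

set_option linter.unusedSectionVars false

open Finset Wd Sm Cl Win

universe u

variable {P : Type u} [Fintype P] [PartialOrder P] [DecidableEq P] {r : ℕ} {t : Tops P}
  {lo hi : ℕ → ℕ} {e : ℕ → ℕ → P}

/-- the number of the cells of level `k` above the cell `s` of level 14 -/
def nb (lo hi : ℕ → ℕ) (s k : ℕ) : ℕ := min (hi k) s + 1 - max (lo k) (s - (14 - k))

lemma card_cone (s k : ℕ) :
    ((Icc (lo k) (hi k)).filter (fun s' => s' ≤ s ∧ s ≤ s' + (14 - k))).card = nb lo hi s k := by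
  have : (Icc (lo k) (hi k)).filter (fun s' => s' ≤ s ∧ s ≤ s' + (14 - k)) =
      Icc (max (lo k) (s - (14 - k))) (min (hi k) s) := by
    ext s'
    simp only [mem_filter, mem_Icc, max_le_iff, le_min_iff]
    omega
  rw [this, Nat.card_Icc]
  rfl

/-- an element of level 15 with all its covers in the component is below `t` only -/
lemma mem_onlyB_of (h : GoodTo P r 14) {v : P} (hv : lev v = 15)
    (hvt : ∀ y, v ⋖ y → y ≤ (t : P)) : v ∈ onlyB t := by
  classical
  rw [mem_onlyB]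
  intro s hs hvs
  have hlt : v < s := by
    rcases eq_or_lt_of_le hvs with h1 | h1
    · rw [h1] at hv; omega
    · exact h1
  obtain ⟨y, hy1, hy2⟩ := exists_covBy_le_of_lt hlt
  have hly := (h.H.covBy_iff.1 hy1).2
  exact Cp.top_eq h.H h.good (z := y) (by omega) hs t.2 hy2 (hvt y hy1)

/-- the positions of an element of level 15 on level 14 are its covers -/
lemma posA_cov (h : GoodTo P r 14) (C : Cp.Comp 14 (t : P) lo hi e) {v : P} (hv : lev v = 15)
    {s : ℕ} (hs : s ∈ posA 14 lo hi e v) : v ⋖ e 14 s := by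
  obtain ⟨⟨h1, h2⟩, h3⟩ := mem_posA.mp hs
  have h4 := C.lev_e 14 s le_rfl h1 h2
  rcases eq_or_lt_of_le h3 with h5 | h5
  · rw [h5] at hv; omega
  · exact h.H.covBy_iff.2 ⟨h5, by omega⟩

lemma posA_ne (h : GoodTo P r 14) (C : Cp.Comp 14 (t : P) lo hi e) {v : P} (hv : lev v = 15)
    (hvt : ∀ y, v ⋖ y → y ≤ (t : P)) : (posA 14 lo hi e v).Nonempty := by
  obtain ⟨x, hx2, hx1⟩ := exists_above' (x := v) (j := 14) (by omega)
  have h1 : v < x := by
    rcases eq_or_lt_of_le hx2 with h1 | h1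
    · rw [h1] at hv; omega
    · exact h1
  have h2 : v ⋖ x := h.H.covBy_iff.2 ⟨h1, by omega⟩
  obtain ⟨s, g1, g2, g3⟩ := C.surj x (hvt x h2) (by omega)
  rw [hx1] at g1 g2 g3
  exact ⟨s, mem_posA.mpr ⟨⟨g1, g2⟩, by rw [g3]; exact hx2⟩⟩

/-- the profile above a position -/
lemma nab_ge (h : GoodTo P r 14) (C : Cp.Comp 14 (t : P) lo hi e) {v : P} (hv : lev v = 15)
    (hvt : ∀ y, v ⋖ y → y ≤ (t : P)) {s k : ℕ} (hs : s ∈ posA 14 lo hi e v) (hk : k ≤ 14) :
    nb lo hi s k ≤ nab k v := by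
  classical
  rw [nab_pos h.H h.good C (mem_onlyB_of h hv hvt) (by omega) hk, ← card_cone]
  refine card_le_card fun s' hs' => ?_
  rw [mem_filter] at hs' ⊢
  exact ⟨hs'.1, s, hs, hs'.2⟩

/-- the profile of a pendant -/
lemma nab_one (h : GoodTo P r 14) (C : Cp.Comp 14 (t : P) lo hi e) {v : P} (hv : lev v = 15)
    (hvt : ∀ y, v ⋖ y → y ≤ (t : P)) {s k : ℕ} (hs : posA 14 lo hi e v = {s}) (hk : k ≤ 14) :
    nab k v = nb lo hi s k := by
  classical
  rw [nab_pos h.H h.good C (mem_onlyB_of h hv hvt) (by omega) hk, ← card_cone, hs]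
  congr 1
  refine filter_congr fun s' _ => ?_
  simp

/-- the cost of the label 2 at the window 7 -/
lemma ct_ge {v : P} (hv : lev v = 15) {f : ℕ → ℕ} (hf : ∀ k, 8 ≤ k → k ≤ 14 → f k ≤ nab k v) :
    f 8 + 2 * (f 9 + f 10 + f 11 + f 12 + f 13 + f 14) + 2 ≤ ct 7 2 v := by
  classical
  have h0 : nab 15 v = 1 := by rw [← hv]; exact nab_self
  unfold ct
  rw [cst_eq, hv]
  simp only [Finset.sum_range_succ, Finset.sum_range_zero, h0]
  have h1 := hf 8 (by omega) (by omega)
  have h2 := hf 9 (by omega) (by omega)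
  have h3 := hf 10 (by omega) (by omega)
  have h4 := hf 11 (by omega) (by omega)
  have h5 := hf 12 (by omega) (by omega)
  have h6 := hf 13 (by omega) (by omega)
  have h7 := hf 14 (by omega) (by omega)
  norm_num
  omega

/-- the cost above one position -/
lemma ct_pos (h : GoodTo P r 14) (C : Cp.Comp 14 (t : P) lo hi e) {v : P} (hv : lev v = 15)
    (hvt : ∀ y, v ⋖ y → y ≤ (t : P)) {s : ℕ} (hs : s ∈ posA 14 lo hi e v) :
    nb lo hi s 8 + 2 * (nb lo hi s 9 + nb lo hi s 10 + nb lo hi s 11 + nb lo hi s 12 +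
      nb lo hi s 13 + nb lo hi s 14) + 2 ≤ ct 7 2 v :=
  ct_ge hv (f := nb lo hi s) fun _ _ hk => nab_ge h C hv hvt hs hk

/-- an element of level 15: straight or dear -/
def Sd (v : P) : Prop := (∀ l, 7 ≤ l → l ≤ 14 → nab l v = 1) ∨ 21 ≤ ct 7 2 v

lemma Sd.ep {v : P} (h : Sd v) : Ep v := by
  rcases h with h | h
  · exact Or.inl h
  · exact Or.inr (Or.inr (Or.inr h))

lemma lo_back {L : ℕ → ℕ} (S : ∀ k, k < 14 → L (k + 1) = 0 ∨ L (k + 1) = L k + 1)
    (hm : ∀ k, k < 14 → L k ≤ L (k + 1)) : ∀ m, m ≤ 14 → L (14 - m) = L 14 - m := by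
  intro m
  induction m with
  | zero => intro _; rfl
  | succ m ih =>
    intro hm'
    have h1 := ih (by omega)
    have h2 := S (14 - (m + 1)) (by omega)
    have h3 := hm (14 - (m + 1)) (by omega)
    rw [show 14 - (m + 1) + 1 = 14 - m by omega] at h2 h3
    omega

lemma hi_back {L : ℕ → ℕ} (S : ∀ k, k < 14 → L (k + 1) = k + 1 ∨ L (k + 1) = L k)
    (hm : ∀ k, k < 14 → L (k + 1) ≤ L k + 1) (hle : ∀ k, k ≤ 14 → L k ≤ k) :
    ∀ m, m ≤ 14 → L (14 - m) = min (14 - m) (L 14) := by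
  intro m
  induction m with
  | zero =>
    intro _
    have := hle 14 le_rfl
    simp only [Nat.sub_zero]
    omega
  | succ m ih =>
    intro hm'
    have h1 := ih (by omega)
    have h2 := S (14 - (m + 1)) (by omega)
    have h3 := hm (14 - (m + 1)) (by omega)
    have h4 := hle (14 - (m + 1)) (by omega)
    rw [show 14 - (m + 1) + 1 = 14 - m by omega] at h2 h3
    omega

/-- rectangles -/
theorem sd_rect (h : GoodTo P r 14) (C : Cp.Comp 14 (t : P) lo hi e)
    (S : RectShape 14 lo hi) {v : P} (hv : lev v = 15) (hvt : ∀ y, v ⋖ y → y ≤ (t : P)) :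
    Sd v := by
  classical
  have hlo : ∀ k, k ≤ 14 → lo k = lo 14 - (14 - k) := by
    intro k hk
    have := lo_back S.lo (fun k hk => by have := C.lo_step k hk; omega) (14 - k) (by omega)
    rwa [show 14 - (14 - k) = k by omega] at this
  have hhi : ∀ k, k ≤ 14 → hi k = min k (hi 14) := by
    intro k hk
    have := hi_back S.hi (fun k hk => by have := C.hi_step k hk; omega) (fun k hk => C.hi_le hk) (14 - k)
      (by omega)
    rwa [show 14 - (14 - k) = k by omega] at this
  have hnb : ∀ s, lo 14 ≤ s → s ≤ hi 14 → ∀ k, k ≤ 14 → nb lo hi s k =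
      min k s + 1 - (s - (14 - k)) := by
    intro s h1 h2 k hk
    unfold nb
    rw [hlo k hk, hhi k hk]
    omega
  by_cases hex : ∃ s ∈ posA 14 lo hi e v, 1 ≤ s ∧ s ≤ 13
  · obtain ⟨s, hs, h1, h2⟩ := hex
    right
    have h3 := ct_pos h C hv hvt hs
    obtain ⟨⟨h4, h5⟩, -⟩ := mem_posA.mp hs
    rw [hnb s h4 h5 8 (by omega), hnb s h4 h5 9 (by omega), hnb s h4 h5 10 (by omega),
      hnb s h4 h5 11 (by omega), hnb s h4 h5 12 (by omega), hnb s h4 h5 13 (by omega),
      hnb s h4 h5 14 (by omega)] at h3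
    omega
  · push Not at hex
    have hpos : ∀ s ∈ posA 14 lo hi e v, s = 0 ∨ s = 14 := by
      intro s hs
      obtain ⟨⟨h4, h5⟩, -⟩ := mem_posA.mp hs
      have h6 := C.hi_le (k := 14) le_rfl
      have h7 := hex s hs
      omega
    by_cases hb : 0 ∈ posA 14 lo hi e v ∧ 14 ∈ posA 14 lo hi e v
    · right
      obtain ⟨⟨a4, a5⟩, -⟩ := mem_posA.mp hb.1
      obtain ⟨⟨b4, b5⟩, -⟩ := mem_posA.mp hb.2
      have h6 := C.hi_le (k := 14) le_rfl
      have h3 := ct_ge hv (f := fun _ => 2) (fun k hk hk' => by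
        rw [nab_pos h.H h.good C (mem_onlyB_of h hv hvt) (by omega) hk']
        have h7 : ({0, k} : Finset ℕ) ⊆ (Icc (lo k) (hi k)).filter
            (fun s' => ∃ s ∈ posA 14 lo hi e v, s' ≤ s ∧ s ≤ s' + (14 - k)) := by
          intro s' hs'
          rw [mem_insert, mem_singleton] at hs'
          rw [mem_filter, mem_Icc, hlo k hk', hhi k hk']
          rcases hs' with rfl | rfl
          · exact ⟨by omega, 0, hb.1, by omega⟩
          · exact ⟨by omega, 14, hb.2, by omega⟩
        have h8 := card_le_card h7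
        rw [card_pair (by omega)] at h8
        exact h8)
      omega
    · left
      obtain ⟨s, hs⟩ := posA_ne h C hv hvt
      have hone : posA 14 lo hi e v = {s} := by
        ext s'
        rw [mem_singleton]
        constructor
        · intro hs'
          have h1 := hpos s hs
          have h2 := hpos s' hs'
          by_contra hne
          refine hb ?_
          rcases h1 with rfl | rfl <;> rcases h2 with rfl | rfl
          · omega
          · exact ⟨hs, hs'⟩
          · exact ⟨hs', hs⟩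
          · omega
        · rintro rfl
          exact hs
      intro l h1 h2
      obtain ⟨⟨h4, h5⟩, -⟩ := mem_posA.mp hs
      rw [nab_one h C hv hvt hone h2, hnb s h4 h5 l h2]
      have := hpos s hs
      omega

/-- stairs -/
theorem sd_stair (h : GoodTo P r 14) (C : Cp.Comp 14 (t : P) lo hi e)
    (S : StairShape 14 lo hi) {v : P} (hv : lev v = 15) (hvt : ∀ y, v ⋖ y → y ≤ (t : P)) :
    Sd v := by
  classical
  have hlo : ∀ k, k ≤ 14 → lo k = lo 14 - (14 - k) := by
    intro k hk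
    have := lo_back S.lo (fun k hk => by have := C.lo_step k hk; omega) (14 - k) (by omega)
    rwa [show 14 - (14 - k) = k by omega] at this
  have hhi : ∀ k, k ≤ 14 → hi k = k / 2 := fun k hk => S.hi k hk
  have hnb : ∀ s, lo 14 ≤ s → s ≤ hi 14 → ∀ k, k ≤ 14 → nb lo hi s k =
      min (k / 2) s + 1 - (s - (14 - k)) := by
    intro s h1 h2 k hk
    unfold nb
    rw [hlo k hk, hhi k hk]
    omega
  by_cases hex : ∃ s ∈ posA 14 lo hi e v, 1 ≤ s
  · obtain ⟨s, hs, h1⟩ := hex
    right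
    have h3 := ct_pos h C hv hvt hs
    obtain ⟨⟨h4, h5⟩, -⟩ := mem_posA.mp hs
    have h6 := hhi 14 le_rfl
    rw [hnb s h4 h5 8 (by omega), hnb s h4 h5 9 (by omega), hnb s h4 h5 10 (by omega),
      hnb s h4 h5 11 (by omega), hnb s h4 h5 12 (by omega), hnb s h4 h5 13 (by omega),
      hnb s h4 h5 14 (by omega)] at h3
    omega
  · push Not at hex
    left
    have h0 : ∀ s ∈ posA 14 lo hi e v, s = 0 := fun s hs => by
      have := hex s hs
      omega
    obtain ⟨s, hs⟩ := posA_ne h C hv hvt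
    have hone : posA 14 lo hi e v = {s} := by
      ext s'
      rw [mem_singleton]
      constructor
      · intro hs'
        rw [h0 s hs, h0 s' hs']
      · rintro rfl
        exact hs
    intro l h1 h2
    obtain ⟨⟨h4, h5⟩, -⟩ := mem_posA.mp hs
    rw [nab_one h C hv hvt hone h2, hnb s h4 h5 l h2]
    have := h0 s hs
    omega

/-- the late words of level 14 with two elements on a level `a ≤ 7` -/
lemma lateW_len : ∀ a ∈ ([3, 4, 5, 6, 7] : List ℕ), ∀ w ∈ lateW a, w.length = 14 - a →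
    (a = 4 ∧ w = w7.take 10) ∨ (a = 7 ∧ w = wa7) := by decide +kernel

/-- the number of the cells of level `k` above the cell `s` of level 14, from the word -/
def nbW (a : ℕ) (w : List Ltr) (s k : ℕ) : ℕ := nb (losW a w) (hisW a w) s k

lemma e7_ct : ∀ s ∈ Icc (losW 4 w7 14) (hisW 4 w7 14), 19 ≤ nbW 4 w7 s 8 +
    2 * (nbW 4 w7 s 9 + nbW 4 w7 s 10 + nbW 4 w7 s 11 + nbW 4 w7 s 12 + nbW 4 w7 s 13 +
    nbW 4 w7 s 14) := by decide +kernel

lemma la7_ct : ∀ s ∈ Icc (losW 7 wa7 14) (hisW 7 wa7 14), s ≠ 7 → 19 ≤ nbW 7 wa7 s 8 +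
    2 * (nbW 7 wa7 s 9 + nbW 7 wa7 s 10 + nbW 7 wa7 s 11 + nbW 7 wa7 s 12 + nbW 7 wa7 s 13 +
    nbW 7 wa7 s 14) := by decide +kernel

lemma nb_word {a : ℕ} {w : List Ltr} (D : WordD 14 a w lo hi) (C : Cp.Comp 14 (t : P) lo hi e)
    {s k : ℕ} (hk : k ≤ 14) : nb lo hi s k = nbW a w s k := by
  obtain ⟨r1, r2⟩ := D.rows C
  unfold nbW nb
  rw [r1 k hk, r2 k hk]

/-- a pendant of a thin element -/
lemma pend_thin (h : GoodTo P r 14) (C : Cp.Comp 14 (t : P) lo hi e) {v : P} (hv : lev v = 15)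
    (hvt : ∀ y, v ⋖ y → y ≤ (t : P)) {s : ℕ} (hs : posA 14 lo hi e v = {s})
    (h1 : ∀ k, 8 ≤ k → k ≤ 14 → nb lo hi s k = 1) (h2 : nb lo hi s 7 = 2) :
    Sg.Thin (e 14 s) ∧ Pend v (e 14 s) := by
  have hm : s ∈ posA 14 lo hi e v := by rw [hs]; exact mem_singleton_self s
  have hp : Pend v (e 14 s) := by
    refine ⟨posA_cov h C hv hm, fun y hy => ?_⟩
    have hly := (h.H.covBy_iff.1 hy).2
    obtain ⟨s', g1, g2, g3⟩ := C.surj y (hvt y hy) (by omega)
    rw [show lev y = 14 by omega] at g1 g2 g3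
    have : s' ∈ posA 14 lo hi e v := mem_posA.mpr ⟨⟨g1, g2⟩, by rw [g3]; exact hy.le⟩
    rw [hs, mem_singleton] at this
    rw [← g3, this]
  have hn : ∀ k, k ≤ 14 → nab k (e 14 s) = nb lo hi s k := fun k hk => by
    rw [← nab_pend hp (by omega), nab_one h C hv hvt hs hk]
  refine ⟨⟨fun k hk hk' => ?_, ?_⟩, hp⟩
  · rw [hn k hk']; exact h1 k hk hk'
  · rw [hn 7 (by omega)]; exact h2

lemma q7_nb : (losW 7 (Qw 7) 14 = 1 ∧ hisW 7 (Qw 7) 14 = 1) ∧
    (∀ k ∈ Icc 8 14, nbW 7 (Qw 7) 1 k = 1) ∧ nbW 7 (Qw 7) 1 7 = 2 := by decide +kernel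

lemma la7_nb : (losW 7 wa7 14 = 3 ∧ hisW 7 wa7 14 = 7) ∧
    (∀ k ∈ Icc 8 14, nbW 7 wa7 7 k = 1) ∧ nbW 7 wa7 7 7 = 2 := by decide +kernel

/-- **(H')**: the components with at least two elements on level 7 -/
theorem sd_wide (h : GoodTo P r 14) (C : Cp.Comp 14 (t : P) lo hi e) (hS : Wd.Shape 14 lo hi)
    (h7 : lo 7 ≠ hi 7) {v : P} (hv : lev v = 15) (hvt : ∀ y, v ⋖ y → y ≤ (t : P))
    (hTh : ∀ x, Sg.Thin x → ¬ Pend v x) : Sd v := by
  classical
  rcases hS with g | ⟨-, g2⟩ | ⟨-, g2⟩ | ⟨g1, -, -⟩ | ⟨g1, -⟩ | ⟨a, g0, g1, g2, g3, hN, g4⟩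
  · have := g 7 (by omega)
    omega
  · exact sd_rect h C g2 hv hvt
  · exact sd_stair h C g2 hv hvt
  · omega
  · omega
  · have ha : a ≤ 7 := by
      by_contra hcon
      have := g2 7 (by omega)
      omega
    obtain ⟨s, hs⟩ := posA_ne h C hv hvt
    have hpos : ∀ s', s' ∈ posA 14 lo hi e v → lo 14 ≤ s' ∧ s' ≤ hi 14 := fun s' hs' =>
      (mem_posA.mp hs').1
    have hq : a = 7 ∧ word lo hi a (14 - a) = Qw 7 ∨ (a = 4 ∧ word lo hi a (14 - a) = w7.take 10) ∨
        (a = 7 ∧ word lo hi a (14 - a) = wa7) := by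
      rcases g4 with ⟨⟨b1, b2⟩, b3⟩ | b3
      · left
        have : a = 7 := by omega
        subst this
        exact ⟨rfl, b3⟩
      · right
        refine lateW_len a ?_ _ b3 word_length
        simp only [List.mem_cons, List.not_mem_nil, or_false]
        omega
    rcases hq with ⟨rfl, hw⟩ | ⟨rfl, hw⟩ | ⟨rfl, hw⟩
    · have D : WordD 14 7 (Qw 7) lo hi := ⟨g2, g3, by rw [hw]; decide⟩
      obtain ⟨r1, r2⟩ := D.rows C
      obtain ⟨⟨q1, q2⟩, q3, q4⟩ := q7_nb
      have hone : posA 14 lo hi e v = {1} := by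
        have h1 : ∀ s', s' ∈ posA 14 lo hi e v → s' = 1 := fun s' hs' => by
          have := hpos s' hs'
          rw [r1 14 le_rfl, r2 14 le_rfl, q1, q2] at this
          omega
        ext s'
        rw [mem_singleton]
        refine ⟨h1 s', fun hs' => ?_⟩
        rw [hs', ← h1 s hs]
        exact hs
      obtain ⟨b1, b2⟩ := pend_thin h C hv hvt hone
        (fun k hk hk' => by rw [nb_word D C hk']; exact q3 k (mem_Icc.mpr ⟨hk, hk'⟩))
        (by rw [nb_word D C (by omega)]; exact q4)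
      exact absurd b2 (hTh _ b1)
    · have D : WordD 14 4 w7 lo hi := ⟨g2, g3, by rw [hw]⟩
      obtain ⟨r1, r2⟩ := D.rows C
      right
      have h3 := ct_pos h C hv hvt hs
      have h4 := hpos s hs
      rw [r1 14 le_rfl, r2 14 le_rfl] at h4
      have h5 := e7_ct s (mem_Icc.mpr h4)
      rw [nb_word D C (by omega), nb_word D C (by omega), nb_word D C (by omega),
        nb_word D C (by omega), nb_word D C (by omega), nb_word D C (by omega),
        nb_word D C (by omega)] at h3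
      omega
    · have D : WordD 14 7 wa7 lo hi := ⟨g2, g3, by rw [hw]; decide⟩
      obtain ⟨r1, r2⟩ := D.rows C
      obtain ⟨⟨q1, q2⟩, q3, q4⟩ := la7_nb
      by_cases hex : ∃ s ∈ posA 14 lo hi e v, s ≠ 7
      · obtain ⟨s, hs, hne⟩ := hex
        right
        have h3 := ct_pos h C hv hvt hs
        have h4 := hpos s hs
        rw [r1 14 le_rfl, r2 14 le_rfl] at h4
        have h5 := la7_ct s (mem_Icc.mpr h4) hne
        rw [nb_word D C (by omega), nb_word D C (by omega), nb_word D C (by omega),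
          nb_word D C (by omega), nb_word D C (by omega), nb_word D C (by omega),
          nb_word D C (by omega)] at h3
        omega
      · push Not at hex
        have hone : posA 14 lo hi e v = {7} := by
          ext s'
          rw [mem_singleton]
          refine ⟨hex s', fun hs' => ?_⟩
          rw [hs', ← hex s hs]
          exact hs
        obtain ⟨b1, b2⟩ := pend_thin h C hv hvt hone
          (fun k hk hk' => by rw [nb_word D C hk']; exact q3 k (mem_Icc.mpr ⟨hk, hk'⟩))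
          (by rw [nb_word D C (by omega)]; exact q4)
        exact absurd b2 (hTh _ b1)

/-- (H') in the form `Ep` -/
theorem ep_wide (h : GoodTo P r 14) (C : Cp.Comp 14 (t : P) lo hi e) (hS : Wd.Shape 14 lo hi)
    (h7 : lo 7 ≠ hi 7) {v : P} (hv : lev v = 15) (hvt : ∀ y, v ⋖ y → y ≤ (t : P))
    (hTh : ∀ x, Sg.Thin x → ¬ Pend v x) : Ep v :=
  (sd_wide h C hS h7 hv hvt hTh).ep

end Pool.Agent.GaussPoset.W7
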